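import Pool.Agent.H82.EOL.Stmts

/-!
Row CL of the board eol (MP_e1dfa1_lc): the average over classes.
-/

set_option autoImplicit false

namespace Pool.Agent.H25.EOL

open Finset Pool.Agent.H82.SVL Pool.Agent.H82.EOL

variable {D R : Type} [Fintype D] [DecidableEq D] {srt : D → ℕ}

/-- The class of `p`. -/
def cl (h : Hid srt R) (E : Finset D) (p : R × Om srt) : Finset (Om srt) :=
  C (E ∪ h.EG p.1 p.2) p.2

theorem cl_spec (h : Hid srt R) (E : Finset D) (π : Om srt) {p : R × Om srt}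
    (hp : p ∈ Tn h E π) {σ : Om srt} (hσ : σ ∈ cl h E p) :
    (p.1, σ) ∈ Tn h E π ∧ cl h E (p.1, σ) = cl h E p ∧ p.2 ∈ cl h E (p.1, σ) := by
  have hp' := mem_filter.mp hp
  have h1 : σ ∈ C (h.EG p.1 p.2) p.2 := C_mono subset_union_right _ hσ
  have h2 : σ ∈ C E p.2 := C_mono subset_union_left _ hσ
  obtain ⟨h3, h4⟩ := h.closed p.1 p.2 hp'.1 σ h1
  have h5 : cl h E (p.1, σ) = cl h E p := by
    unfold cl
    simp only
    rw [h4]
    exact C_eq_of_mem hσ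
  refine ⟨mem_filter.mpr ⟨h3, mem_C_trans hp'.2 h2⟩, h5, ?_⟩
  rw [h5]
  exact self_mem_C _ _

theorem CL_thm : S_CL := by
  intro D R _ _ srt h E π A
  have e1 : ∑ p ∈ Tn h E π,
      (∑ σ ∈ C (E ∪ h.EG p.1 p.2) p.2, A σ) / (C (E ∪ h.EG p.1 p.2) p.2).card
      = ∑ x ∈ (Tn h E π).sigma (fun p => cl h E p), A x.2 / ((cl h E x.1).card : ℝ) := by
    rw [Finset.sum_sigma]
    refine Finset.sum_congr rfl (fun p _ => ?_)
    rw [Finset.sum_div]
    rfl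
  have e2 : ∑ p ∈ Tn h E π, A p.2
      = ∑ x ∈ (Tn h E π).sigma (fun p => cl h E p), A x.1.2 / ((cl h E x.1).card : ℝ) := by
    rw [Finset.sum_sigma]
    refine Finset.sum_congr rfl (fun p _ => ?_)
    show A p.2 = ∑ _s ∈ cl h E p, A p.2 / ((cl h E p).card : ℝ)
    rw [Finset.sum_const, nsmul_eq_mul]
    have h0 : ((cl h E p).card : ℝ) ≠ 0 := by
      have := card_C_pos (E ∪ h.EG p.1 p.2) p.2
      exact Nat.cast_ne_zero.mpr (ne_of_gt this)
    field_simp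
  rw [e1, e2]
  refine Finset.sum_nbij' (fun x => ⟨(x.1.1, x.2), x.1.2⟩) (fun x => ⟨(x.1.1, x.2), x.1.2⟩)
    ?_ ?_ ?_ ?_ ?_
  · intro x hx
    rw [Finset.mem_sigma] at hx ⊢
    obtain ⟨h1, -, h3⟩ := cl_spec h E π hx.1 hx.2
    exact ⟨h1, h3⟩
  · intro x hx
    rw [Finset.mem_sigma] at hx ⊢
    obtain ⟨h1, -, h3⟩ := cl_spec h E π hx.1 hx.2
    exact ⟨h1, h3⟩
  · intro x _
    rfl
  · intro x _
    rfl
  · intro x hx
    rw [Finset.mem_sigma] at hx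
    obtain ⟨-, h2, -⟩ := cl_spec h E π hx.1 hx.2
    simp only
    rw [h2]

end Pool.Agent.H25.EOL
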